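import Mathlib
import Pool.Agent.H27.CenChain

set_option autoImplicit false

namespace Pool.Agent.Results.MP_08ae53_al.InfiniteRankCentre

open scoped IsMulCommutative

universe u

/-- `τ 0, τ 1, …, τ k` is a non-refinable chain of length `k` in the lattice of group topologies:
each `τ (i+1)` is strictly finer than `τ i` and no group topology lies strictly between them.
(In Mathlib's order on `GroupTopology G`, `σ < τ` says that `σ` is strictly finer than `τ`.) -/
def IsNonrefinableChain {G : Type u} [Group G] (k : ℕ) (τ : ℕ → GroupTopology G) : Prop :=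
  ∀ i < k, τ (i + 1) < τ i ∧ ∀ σ : GroupTopology G, ¬ (τ (i + 1) < σ ∧ σ < τ i)

/-- All members `τ 0, …, τ k` of the chain are Hausdorff. -/
def IsHausdorffChain {G : Type u} [Group G] (k : ℕ) (τ : ℕ → GroupTopology G) : Prop :=
  ∀ i ≤ k, @T2Space G (τ i).toTopologicalSpace

/-- The elements `c 0, c 1, …` of the centre of `G` are independent: a finite product of powers
of them is `1` only if every factor is `1`. -/
def IsIndependent {G : Type u} [Group G] (c : ℕ → Subgroup.center G) : Prop :=
  ∀ (s : Finset ℕ) (e : ℕ → ℤ), ∏ n ∈ s, c n ^ e n = 1 → ∀ n ∈ s, c n ^ e n = 1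

/-- If the centre of `G` contains an infinite independent sequence of non-trivial elements, then
for every `k` there is a non-refinable chain of length `k` of Hausdorff group topologies on `G`,
with the discrete topology as its finest member. -/
theorem result : ∀ (G : Type u) [Group G] (c : ℕ → Subgroup.center G), (∀ n, c n ≠ 1) →
    IsIndependent c → ∀ k : ℕ, ∃ τ : ℕ → GroupTopology G,
      IsNonrefinableChain k τ ∧ IsHausdorffChain k τ ∧ τ k = ⊥ := by
  intro G _ c hne hc k
  obtain ⟨s, h0, h1, h2⟩ := Pool.Agent.H27.CenChain.exists_chain c hne hc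
  refine ⟨fun i => s (k - i), ?_, ?_, ?_⟩
  · intro i hi
    have h3 : k - i = (k - (i + 1)) + 1 := by omega
    change s (k - (i + 1)) < s (k - i) ∧
      ∀ σ : GroupTopology G, ¬ (s (k - (i + 1)) < σ ∧ σ < s (k - i))
    rw [h3]
    exact h2 (k - (i + 1))
  · intro i _
    exact Pool.Agent.H27.CenChain.t2_iff.2 (h1 _)
  · change s (k - k) = ⊥
    rw [Nat.sub_self, h0]

end Pool.Agent.Results.MP_08ae53_al.InfiniteRankCentre
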